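import Mathlib

/-!
# Strict positivity does not suffice in the symmetric Polya theorem (Q1)

`f = p₂ p₆ - p₄² + p₈` is strictly positive on the unit sphere of `ℓ²`, but for every `k` the
coefficient of `m_(4,4,2,...,2)` in `p₂ᵏ f` is negative.
-/

set_option autoImplicit false

open MvPolynomial

namespace Pool.Agent.Results.MP_2f3180_ag.PolyaFails

/-- The power sum `p_k = ∑ X_i ^ k` as a formal power series in the variables `X_0, X_1, ...`. -/
noncomputable def powerSum (k : ℕ) : MvPowerSeries ℕ ℝ :=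
  open Classical in fun m => if ∃ i, m = Finsupp.single i k then 1 else 0

/-- The symmetric function `g(p_1, p_2, ...)` for a polynomial `g` in variables indexed by `ℕ`
(the variable with index `j` stands for the power sum `p_j`). -/
noncomputable def symFun (g : MvPolynomial ℕ ℝ) : MvPowerSeries ℕ ℝ :=
  aeval powerSum g

/-- The value `g(p_1(x), p_2(x), ...)` of the symmetric function at a sequence `x`, where
`p_j(x) = ∑ x_i ^ j`. -/
noncomputable def value (g : MvPolynomial ℕ ℝ) (x : ℕ → ℝ) : ℝ :=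
  eval (fun j => ∑' i, x i ^ j) g

/-- `x` is a square summable sequence with `p_2(x) = 1`. -/
def InSphere (x : ℕ → ℝ) : Prop :=
  Summable (fun i => x i ^ 2) ∧ ∑' i, x i ^ 2 = 1

/-- The monomial symmetric function `m_lam` of a partition `lam`: the sum of all monomials whose
multiset of nonzero exponents is `lam`. -/
noncomputable def monomialSym {N : ℕ} (lam : Nat.Partition N) : MvPowerSeries ℕ ℝ :=
  open Classical in fun m => if m.support.val.map m = lam.parts then 1 else 0

/-- The statement of Q1 for the symmetric function `g`, homogeneous of degree `2 d`: for some `k`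
the product `p_2 ^ k g` is a linear combination with nonnegative coefficients of the functions
`m_lam`, where `lam` runs over the partitions of `2 d + 2 k` with all parts even. -/
def HasPolyaCertificate (d : ℕ) (g : MvPolynomial ℕ ℝ) : Prop :=
  ∃ (k : ℕ) (c : Nat.Partition (2 * d + 2 * k) → ℝ), (∀ lam, 0 ≤ c lam) ∧
    powerSum 2 ^ k * symFun g =
      ∑ lam : Nat.Partition (2 * d + 2 * k) with ∀ i ∈ lam.parts, Even i, c lam • monomialSym lam

theorem coeff_powerSum (k : ℕ) (m : ℕ →₀ ℕ) :
    MvPowerSeries.coeff m (powerSum k) = (open Classical in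
      if ∃ i, m = Finsupp.single i k then (1 : ℝ) else 0) := rfl

theorem coeff_powerSum_single (k i : ℕ) :
    MvPowerSeries.coeff (Finsupp.single i k) (powerSum k) = 1 := by
  rw [coeff_powerSum, if_pos ⟨i, rfl⟩]

/-- all coefficients are nonnegative -/
def Nn (F : MvPowerSeries ℕ ℝ) : Prop := ∀ m, 0 ≤ MvPowerSeries.coeff m F

theorem nn_powerSum (k : ℕ) : Nn (powerSum k) := by
  intro m
  rw [coeff_powerSum]
  split_ifs <;> norm_num

theorem nn_mul {F G : MvPowerSeries ℕ ℝ} (hF : Nn F) (hG : Nn G) : Nn (F * G) := by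
  intro m
  classical
  rw [MvPowerSeries.coeff_mul]
  exact Finset.sum_nonneg fun x _ => mul_nonneg (hF _) (hG _)

theorem nn_pow {F : MvPowerSeries ℕ ℝ} (hF : Nn F) (k : ℕ) : Nn (F ^ k) := by
  induction k with
  | zero =>
    intro m
    classical
    rw [pow_zero, MvPowerSeries.coeff_one]
    split_ifs <;> norm_num
  | succ k ih => rw [pow_succ]; exact nn_mul ih hF

theorem coeff_mul_ge {F G : MvPowerSeries ℕ ℝ} (hF : Nn F) (hG : Nn G) (a b : ℕ →₀ ℕ) :
    MvPowerSeries.coeff a F * MvPowerSeries.coeff b G ≤ MvPowerSeries.coeff (a + b) (F * G) := by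
  classical
  rw [MvPowerSeries.coeff_mul]
  have h := Finset.single_le_sum (f := fun x : (ℕ →₀ ℕ) × (ℕ →₀ ℕ) =>
    MvPowerSeries.coeff x.1 F * MvPowerSeries.coeff x.2 G)
    (fun x _ => mul_nonneg (hF _) (hG _))
    (Finset.HasAntidiagonal.mem_antidiagonal.2 (rfl : (a, b).1 + (a, b).2 = a + b))
  exact h

/-- the exponent vector `(0, 0, 2, ..., 2)` with `k` twos -/
noncomputable def tail (k : ℕ) : ℕ →₀ ℕ := ∑ j ∈ Finset.range k, Finsupp.single (j + 2) 2

theorem coeff_tail (k : ℕ) : 1 ≤ MvPowerSeries.coeff (tail k) (powerSum 2 ^ k) := by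
  induction k with
  | zero => simp [tail]
  | succ k ih =>
    rw [tail, Finset.sum_range_succ, ← tail, pow_succ]
    have h := coeff_mul_ge (nn_pow (nn_powerSum 2) k) (nn_powerSum 2) (tail k)
      (Finsupp.single (k + 2) 2)
    rw [coeff_powerSum_single, mul_one] at h
    linarith

theorem tail_apply (k i : ℕ) : tail k i ≤ 2 ∧ (i < 2 → tail k i = 0) := by
  rw [tail, Finsupp.finsetSum_apply]
  simp only [Finsupp.single_apply]
  constructor
  · rw [← Finset.sum_filter]
    have h : ((Finset.range k).filter (fun j => j + 2 = i)).card ≤ 1 := by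
      rw [Finset.card_le_one]
      intro a ha b hb
      rw [Finset.mem_filter] at ha hb
      omega
    rw [Finset.sum_const, smul_eq_mul]
    omega
  · intro hi
    apply Finset.sum_eq_zero
    intro j _
    rw [if_neg (by omega)]

/-- the exponent vector `(4, 4, 2, ..., 2)` -/
noncomputable def expo (k : ℕ) : ℕ →₀ ℕ := tail k + (Finsupp.single 0 4 + Finsupp.single 1 4)

theorem expo_le (k i : ℕ) : expo k i ≤ 4 := by
  rw [expo, Finsupp.add_apply, Finsupp.add_apply, Finsupp.single_apply, Finsupp.single_apply]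
  obtain ⟨h1, h2⟩ := tail_apply k i
  by_cases h0 : 0 = i
  · have := h2 (by omega)
    rw [if_pos h0, if_neg (by omega), this]
    norm_num
  · by_cases h0' : 1 = i
    · have := h2 (by omega)
      rw [if_neg h0, if_pos h0', this]
      norm_num
    · rw [if_neg h0, if_neg h0']
      omega

/-- a power sum of degree larger than all exponents does not contribute -/
theorem coeff_mul_powerSum_zero (F : MvPowerSeries ℕ ℝ) {j : ℕ} {m : ℕ →₀ ℕ}
    (h : ∀ i, m i < j) : MvPowerSeries.coeff m (F * powerSum j) = 0 := by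
  classical
  rw [MvPowerSeries.coeff_mul]
  apply Finset.sum_eq_zero
  rintro ⟨a, b⟩ hab
  rw [Finset.HasAntidiagonal.mem_antidiagonal] at hab
  have : MvPowerSeries.coeff b (powerSum j) = 0 := by
    rw [coeff_powerSum, if_neg]
    rintro ⟨i, hi⟩
    have h1 := h i
    have h2 := DFunLike.congr_fun hab i
    simp only [Finsupp.add_apply, hi, Finsupp.single_eq_same] at h2
    omega
  rw [this, mul_zero]

/-- `p₂ p₆ - p₄² + p₈` -/
noncomputable def g : MvPolynomial ℕ ℝ := X 2 * X 6 - X 4 ^ 2 + X 8

theorem symFun_g : symFun g =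
    powerSum 2 * powerSum 6 - powerSum 4 ^ 2 + powerSum 8 := by
  simp [symFun, g]

theorem coeff_neg (k : ℕ) : MvPowerSeries.coeff (expo k) (powerSum 2 ^ k * symFun g) < 0 := by
  have h1 : powerSum 2 ^ k * symFun g = powerSum 2 ^ k * powerSum 2 * powerSum 6 -
      powerSum 2 ^ k * (powerSum 4 * powerSum 4) + powerSum 2 ^ k * powerSum 8 := by
    rw [symFun_g]; ring
  rw [h1, map_add, map_sub, coeff_mul_powerSum_zero _ (fun i => by have := expo_le k i; omega),
    coeff_mul_powerSum_zero _ (fun i => by have := expo_le k i; omega)]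
  have h2 := coeff_mul_ge (nn_powerSum 4) (nn_powerSum 4) (Finsupp.single 0 4)
    (Finsupp.single 1 4)
  rw [coeff_powerSum_single, coeff_powerSum_single, mul_one] at h2
  have h3 := coeff_mul_ge (nn_pow (nn_powerSum 2) k) (nn_mul (nn_powerSum 4) (nn_powerSum 4))
    (tail k) (Finsupp.single 0 4 + Finsupp.single 1 4)
  have h4 := coeff_tail k
  have h5 : (1 : ℝ) ≤ MvPowerSeries.coeff (tail k) (powerSum 2 ^ k) *
      MvPowerSeries.coeff (Finsupp.single 0 4 + Finsupp.single 1 4)
        (powerSum 4 * powerSum 4) := by nlinarith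
  have h6 : MvPowerSeries.coeff (expo k) (powerSum 2 ^ k * (powerSum 4 * powerSum 4)) =
    MvPowerSeries.coeff (tail k + (Finsupp.single 0 4 + Finsupp.single 1 4))
      (powerSum 2 ^ k * (powerSum 4 * powerSum 4)) := rfl
  rw [h6]
  linarith

theorem no_certificate (d : ℕ) : ¬ HasPolyaCertificate d g := by
  rintro ⟨k, c, hc, h⟩
  have h1 := coeff_neg k
  rw [h, map_sum] at h1
  have h2 : ∀ lam ∈ (Finset.univ.filter fun lam : Nat.Partition (2 * d + 2 * k) =>
      ∀ i ∈ lam.parts, Even i), 0 ≤ MvPowerSeries.coeff (expo k) (c lam • monomialSym lam) := by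
    intro lam _
    rw [MvPowerSeries.coeff_smul]
    refine mul_nonneg (hc lam) ?_
    show (0 : ℝ) ≤ monomialSym lam (expo k)
    unfold monomialSym
    split_ifs <;> norm_num
  exact absurd h1 (not_lt.2 (Finset.sum_nonneg h2))

theorem abs_le_one {x : ℕ → ℝ} (hx : InSphere x) (i : ℕ) : x i ^ 2 ≤ 1 := by
  rw [← hx.2]
  exact hx.1.le_tsum i (fun j _ => sq_nonneg _)

theorem summable_pow {x : ℕ → ℝ} (hx : InSphere x) (j : ℕ) :
    Summable fun i => x i ^ (2 * (j + 1)) := by
  refine Summable.of_nonneg_of_le (fun i => ?_) (fun i => ?_) hx.1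
  · rw [pow_mul]; positivity
  · rw [pow_mul, pow_succ]
    have h1 := abs_le_one hx i
    have h2 : (x i ^ 2) ^ j ≤ 1 := pow_le_one₀ (sq_nonneg _) h1
    nlinarith [sq_nonneg (x i)]

theorem value_pos {x : ℕ → ℝ} (hx : InSphere x) : 0 < value g x := by
  have e : value g x = (∑' i, x i ^ 2) * (∑' i, x i ^ 6) - (∑' i, x i ^ 4) ^ 2 +
      ∑' i, x i ^ 8 := by
    simp [value, g]
  rw [e]
  have s2 : Summable fun i => x i ^ 2 := hx.1
  have s4 : Summable fun i => x i ^ 4 := summable_pow hx 1
  have s6 : Summable fun i => x i ^ 6 := summable_pow hx 2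
  have s8 : Summable fun i => x i ^ 8 := summable_pow hx 3
  have hCS : (∑' i, x i ^ 4) ^ 2 ≤ (∑' i, x i ^ 2) * (∑' i, x i ^ 6) := by
    have t4 := (s4.hasSum.tendsto_sum_nat).pow 2
    have t26 := (s2.hasSum.tendsto_sum_nat).mul (s6.hasSum.tendsto_sum_nat)
    refine le_of_tendsto_of_tendsto' t4 t26 fun n => ?_
    have := Finset.sum_mul_sq_le_sq_mul_sq (Finset.range n) (fun i => x i) (fun i => x i ^ 3)
    calc (∑ i ∈ Finset.range n, x i ^ 4) ^ 2 = (∑ i ∈ Finset.range n, x i * x i ^ 3) ^ 2 := by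
          congr 1
          exact Finset.sum_congr rfl fun i _ => by ring
      _ ≤ (∑ i ∈ Finset.range n, x i ^ 2) * ∑ i ∈ Finset.range n, (x i ^ 3) ^ 2 := this
      _ = _ := by
          congr 1
          exact Finset.sum_congr rfl fun i _ => by ring
  have h8 : 0 < ∑' i, x i ^ 8 := by
    obtain ⟨i, hi⟩ : ∃ i, x i ≠ 0 := by
      by_contra hcon
      push Not at hcon
      have := hx.2
      simp [hcon] at this
    exact s8.tsum_pos (fun j => by positivity) i (by positivity)
  linarith

theorem g_homogeneous : g.IsWeightedHomogeneous (id : ℕ → ℕ) (2 * 4) := by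
  have hX : ∀ j : ℕ, (X j : MvPolynomial ℕ ℝ).IsWeightedHomogeneous (id : ℕ → ℕ) j :=
    fun j => isWeightedHomogeneous_X ℝ (id : ℕ → ℕ) j
  have h1 := (hX 2).mul (hX 6)
  have h2 := (hX 4).pow 2
  exact (h1.sub h2).add (hX 8)

theorem g_vars : ∀ j ∈ g.vars, Even j ∧ 2 ≤ j := by
  intro j hj
  have h1 : g.vars ⊆ {2, 6, 4, 8} := by
    unfold g
    refine (vars_add_subset _ _).trans (Finset.union_subset ((vars_sub_subset _).trans
      (Finset.union_subset ((vars_mul _ _).trans ?_) ((vars_pow _ _).trans ?_))) ?_)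
    · rw [vars_X, vars_X]; decide
    · rw [vars_X]; decide
    · rw [vars_X]; decide
  have h2 := h1 hj
  fin_cases h2 <;> decide

/-- Q1 has a negative answer: the symmetric function `p₂ p₆ - p₄² + p₈` is homogeneous of
degree `8`, lies in `ℝ[p₂, p₄, ...]` and is strictly positive on the unit sphere of `ℓ²`, but for
no `k` is `p₂ᵏ (p₂ p₆ - p₄² + p₈)` a nonnegative combination of monomial symmetric functions. -/
theorem result : ¬ ∀ (d : ℕ) (f : MvPolynomial ℕ ℝ), (∀ j ∈ f.vars, Even j ∧ 2 ≤ j) →
    f.IsWeightedHomogeneous (id : ℕ → ℕ) (2 * d) → (∀ x, InSphere x → 0 < value f x) →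
    HasPolyaCertificate d f := by
  intro h
  exact no_certificate 4 (h 4 g g_vars g_homogeneous fun x hx => value_pos hx)

end Pool.Agent.Results.MP_2f3180_ag.PolyaFails
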